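import Mathlib
import Pool.Agent.Helper36.SPR.St

set_option autoImplicit false

namespace Pool.Agent.Helper91.SPR

open Pool.Agent.Helper36.SPR
open Finset

lemma digits_sum_eq (m : ℕ) : (Nat.digits 2 m).sum = m.bitIndices.length := by
  induction m using Nat.strong_induction_on with
  | _ m ih =>
    rcases Nat.eq_zero_or_pos m with h0 | hpos
    · subst h0; simp
    · rw [Nat.digits_def' (by norm_num) hpos]
      have hlt : m / 2 < m := Nat.div_lt_self hpos (by norm_num)
      have h1 := ih (m / 2) hlt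
      rcases Nat.even_or_odd' m with ⟨c, hc | hc⟩
      · have h2 : m / 2 = c := by omega
        have h3 : m % 2 = 0 := by omega
        rw [h2] at h1
        rw [h2, h3, List.sum_cons, h1, hc, Nat.bitIndices_two_mul]
        simp
      · have h2 : m / 2 = c := by omega
        have h3 : m % 2 = 1 := by omega
        rw [h2] at h1
        rw [h2, h3, List.sum_cons, h1, hc, Nat.bitIndices_two_mul_add_one]
        simp; omega

lemma sum_bits (m : ℕ) : ∑ i ∈ m.bitIndices.toFinset, 2 ^ i = m := by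
  rw [List.sum_toFinset _ Nat.bitIndices_nodup]
  exact Nat.sum_map_two_pow_bitIndices m

lemma bits_sum (S : Finset ℕ) : (∑ i ∈ S, 2 ^ i).bitIndices.toFinset = S := by
  simp

lemma card_bits (m : ℕ) : m.bitIndices.toFinset.card = (Nat.digits 2 m).sum := by
  rw [digits_sum_eq, List.toFinset_card_of_nodup Nat.bitIndices_nodup]

lemma odd_iff_zero_mem (m : ℕ) : Odd m ↔ 0 ∈ m.bitIndices.toFinset := by
  rw [List.mem_toFinset, Nat.mem_bitIndices, Nat.testBit_zero, decide_eq_true_eq, Nat.odd_iff]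

lemma sum_lt (S : Finset ℕ) (N : ℕ) (h : S ⊆ range N) : ∑ i ∈ S, 2 ^ i < 2 ^ N := by
  calc ∑ i ∈ S, 2 ^ i ≤ ∑ i ∈ range N, 2 ^ i := sum_le_sum_of_subset h
    _ < 2 ^ N := by
      have := Nat.geomSum_eq (m := 2) (le_refl 2) N
      rw [this]
      have : 0 < 2 ^ N := by positivity
      omega

theorem hBN : StBN := by
  intro k N Q _ hN
  refine card_nbij' (fun m => m.bitIndices.toFinset.erase 0) (fun D => 1 + ∑ i ∈ D, 2 ^ i)
    ?_ ?_ ?_ ?_
  · intro m hm
    simp only [coe_filter, mem_range, Set.mem_setOf_eq] at hm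
    obtain ⟨hlt, hodd, hs, hQ⟩ := hm
    have h0 := (odd_iff_zero_mem m).1 hodd
    simp only [coe_filter, Set.mem_setOf_eq, mem_powersetCard]
    refine ⟨⟨?_, ?_⟩, ?_⟩
    · intro i hi
      rw [mem_erase, List.mem_toFinset] at hi
      have h1 := Nat.two_pow_le_of_mem_bitIndices hi.2
      have h2 : 2 ^ i < 2 ^ N := lt_of_le_of_lt h1 hlt
      have h3 : i < N := (Nat.pow_lt_pow_iff_right (by norm_num)).1 h2
      rw [mem_Ico]
      exact ⟨Nat.one_le_iff_ne_zero.2 hi.1, h3⟩
    · rw [card_erase_of_mem h0, card_bits, hs]; simp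
    · have h4 : 1 + ∑ i ∈ m.bitIndices.toFinset.erase 0, 2 ^ i = m := by
        have := add_sum_erase m.bitIndices.toFinset (fun i => 2 ^ i) h0
        rw [sum_bits] at this
        simpa using this
      rw [h4]; exact hQ
  · intro D hD
    simp only [coe_filter, Set.mem_setOf_eq, mem_powersetCard] at hD
    obtain ⟨⟨hsub, hc⟩, hQ⟩ := hD
    have h0 : 0 ∉ D := fun h => by
      have := mem_Ico.1 (hsub h); omega
    have hsum : 1 + ∑ i ∈ D, 2 ^ i = ∑ i ∈ insert 0 D, 2 ^ i := by
      rw [sum_insert h0]; simp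
    simp only [coe_filter, mem_range, Set.mem_setOf_eq]
    refine ⟨?_, ?_, ?_, hQ⟩
    · rw [hsum]
      apply sum_lt
      intro i hi
      rw [mem_insert] at hi
      rw [mem_range]
      rcases hi with rfl | hi
      · omega
      · exact (mem_Ico.1 (hsub hi)).2
    · rw [hsum, odd_iff_zero_mem, bits_sum]; exact mem_insert_self _ _
    · rw [hsum, ← card_bits, bits_sum, card_insert_of_notMem h0, hc]
  · intro m hm
    simp only [coe_filter, mem_range, Set.mem_setOf_eq] at hm
    obtain ⟨hlt, hodd, hs, hQ⟩ := hm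
    have h0 := (odd_iff_zero_mem m).1 hodd
    have := add_sum_erase m.bitIndices.toFinset (fun i => 2 ^ i) h0
    rw [sum_bits] at this
    simpa using this
  · intro D hD
    simp only [coe_filter, Set.mem_setOf_eq, mem_powersetCard] at hD
    obtain ⟨⟨hsub, hc⟩, hQ⟩ := hD
    have h0 : 0 ∉ D := fun h => by
      have := mem_Ico.1 (hsub h); omega
    have hsum : 1 + ∑ i ∈ D, 2 ^ i = ∑ i ∈ insert 0 D, 2 ^ i := by
      rw [sum_insert h0]; simp
    show (1 + ∑ i ∈ D, 2 ^ i).bitIndices.toFinset.erase 0 = D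
    rw [hsum, bits_sum, erase_insert h0]

end Pool.Agent.Helper91.SPR
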